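import Pool.Agent.EDG.Stmts

/-!
# Squad EDG, row THN: the polynomial `Tha m E a` is in the filtration and is not zero
-/

set_option autoImplicit false

namespace Pool.Agent.EDG.H85

open Polynomial Finset

/-- Polynomials `m e` of degree `e` with nonzero leading coefficient are independent. -/
theorem lin_zero85 {R : Type} [CommRing R] [IsDomain R] (m : ℕ → R[X])
    (hd : ∀ e, (m e).natDegree = e) (hl : ∀ e, (m e).leadingCoeff ≠ 0) (q : ℕ → R) (N : ℕ)
    (h : ∑ e ∈ range N, C (q e) * m e = 0) : ∀ e < N, q e = 0 := by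
  induction N with
  | zero =>
    intro e he
    omega
  | succ N ih =>
    have h1 := congrArg (fun p : R[X] => p.coeff N) h
    simp only [finsetSum_coeff, coeff_C_mul, coeff_zero] at h1
    rw [sum_range_succ] at h1
    have h2 : ∑ e ∈ range N, q e * (m e).coeff N = 0 := by
      apply sum_eq_zero
      intro e he
      rw [coeff_eq_zero_of_natDegree_lt (by rw [hd]; exact mem_range.1 he), mul_zero]
    have h3 : (m N).coeff N ≠ 0 := by
      have h4 := hl N
      rw [Polynomial.leadingCoeff, hd] at h4
      exact h4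
    rw [h2, zero_add] at h1
    have h5 : q N = 0 := (mul_eq_zero.1 h1).resolve_right h3
    have h6 : ∑ e ∈ range N, C (q e) * m e = 0 := by
      rw [sum_range_succ, h5, C_0, zero_mul, add_zero] at h
      exact h
    intro e he
    rcases Nat.lt_succ_iff_lt_or_eq.1 he with h7 | h7
    · exact ih h6 e h7
    · rw [h7]
      exact h5

theorem thn : ThnStmt := by
  intro qdg m E a hm
  have key : Tha m E a =
      ∑ e ∈ range E, C (∑ j ∈ range m, C (2 ^ j * a j e) * Q j) * h e := by
    unfold Tha
    rw [sum_comm]
    refine sum_congr rfl fun e _ => ?_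
    rw [map_sum, sum_mul]
  constructor
  · refine ⟨fun e => ∑ j ∈ range m, C (2 ^ j * a j e) * Q j, fun e => ?_, key⟩
    have h1 : ∑ j ∈ range m, C (2 ^ j * a j e) * Q j ∈ degreeLT ℤ m := by
      refine Submodule.sum_mem _ fun j hj => ?_
      rw [mem_degreeLT]
      refine lt_of_le_of_lt degree_le_natDegree (WithBot.coe_lt_coe.2 ?_)
      refine lt_of_le_of_lt (natDegree_C_mul_le _ _) ?_
      rw [(qdg j).1]
      exact mem_range.1 hj
    exact mem_degreeLT.1 h1
  · rintro ⟨j, hj, e, he, hne⟩ h0
    rw [key] at h0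
    have h1 := lin_zero85 h h_natDegree (fun e => by rw [(h_monic e).leadingCoeff]; exact one_ne_zero)
      _ E h0 e he
    have h2 := lin_zero85 Q (fun j => (qdg j).1) (fun j => by
      rcases (qdg j).2 with h3 | h3
      · rw [h3]; norm_num
      · rw [h3]; norm_num) _ m h1 j hj
    exact hne ((mul_eq_zero.1 h2).resolve_left (pow_ne_zero _ two_ne_zero))

end Pool.Agent.EDG.H85
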